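import Pool.Agent.Work.MP_b5407d_lbm.Interface

set_option autoImplicit false

/-! # Block GO: a polygon with normals from the regular `N`-gon is a `Gon` after removal of the
superfluous constraints -/

open MeasureTheory Set Filter Topology

namespace Pool.LBM

namespace GO

/-! ### Plane geometry -/

theorem plk (a b c x : R2) : cr a b * dt c x + cr b c * dt a x + cr c a * dt b x = 0 := by
  simp only [cr, dt]; ring

theorem plk4 (a b c d : R2) : cr a c * cr b d = cr a b * cr c d + cr a d * cr b c := by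
  simp only [cr]; ring

theorem cr_rt (a x : R2) : cr (rt a) x = -dt a x := by simp only [cr, rt, dt]; ring

theorem dt_rt (a b : R2) : dt a (rt b) = -cr a b := by simp only [cr, rt, dt]; ring

theorem cr_smul_left (c : ℝ) (a b : R2) : cr (c • a) b = c * cr a b := by
  simp only [cr, Prod.smul_fst, Prod.smul_snd, smul_eq_mul]; ring

theorem dt_smul (c : ℝ) (a b : R2) : dt a (c • b) = c * dt a b := by
  simp only [dt, Prod.smul_fst, Prod.smul_snd, smul_eq_mul]; ring

theorem dt_sub (a b c : R2) : dt a (b - c) = dt a b - dt a c := by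
  simp only [dt, Prod.fst_sub, Prod.snd_sub]; ring

/-- a vector orthogonal to a unit vector `a` is a multiple of `rt a` -/
theorem eq_rt {a x : R2} (ha : dt a a = 1) (hx : dt a x = 0) : x = dt (rt a) x • rt a := by
  simp only [dt] at ha hx
  ext
  · simp only [dt, rt, Prod.smul_fst, smul_eq_mul]
    linear_combination a.1 * hx - x.1 * ha
  · simp only [dt, rt, Prod.smul_snd, smul_eq_mul]
    linear_combination a.2 * hx - x.2 * ha

/-- intersection of two lines -/
noncomputable def ix (a b : R2) (p q : ℝ) : R2 := (cr a b)⁻¹ • (q • rt a - p • rt b)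

theorem dt_ix_left {a b : R2} (p q : ℝ) (h : cr a b ≠ 0) : dt a (ix a b p q) = p := by
  have h1 : dt a (q • rt a - p • rt b) = p * cr a b := by
    simp only [dt, rt, cr, Prod.smul_fst, Prod.smul_snd, smul_eq_mul, Prod.fst_sub, Prod.snd_sub]
    ring
  rw [ix, dt_smul, h1]
  field_simp

theorem dt_ix_right {a b : R2} (p q : ℝ) (h : cr a b ≠ 0) : dt b (ix a b p q) = q := by
  have h1 : dt b (q • rt a - p • rt b) = q * cr a b := by
    simp only [dt, rt, cr, Prod.smul_fst, Prod.smul_snd, smul_eq_mul, Prod.fst_sub, Prod.snd_sub]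
    ring
  rw [ix, dt_smul, h1]
  field_simp

/-! ### The polygon from strict inequalities -/

theorem core (n : ℕ) (hn : 3 ≤ n) (θ : ℕ → R2) (η : ℕ → ℝ) (Q : ℕ → R2)
    (hθ : ∀ k, θ (k + n) = θ k) (hη : ∀ k, η (k + n) = η k) (hQ : ∀ k, Q (k + n) = Q k)
    (unit : ∀ k, dt (θ k) (θ k) = 1) (gap : ∀ k, 0 < cr (θ k) (θ (k + 1)))
    (h1 : ∀ k, dt (θ k) (Q k) = η k) (h2 : ∀ k, dt (θ (k + 1)) (Q k) = η (k + 1))
    (strict : ∀ i j, i + 1 < j → j < i + n → dt (θ j) (Q i) < η j) :
    Gon n θ (fun k => Q (k + n - 1)) (fun k => dt (rt (θ k)) (Q k - Q (k + n - 1))) ∧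
      ∀ k, dt (θ k) (Q (k + n - 1)) = η k := by
  have onl : ∀ k, dt (θ k) (Q (k + n - 1)) = η k := by
    intro k
    have h3 := h2 (k + n - 1)
    have e : k + n - 1 + 1 = k + n := by omega
    rw [e, hθ, hη] at h3
    exact h3
  have hP1 : ∀ k, Q (k + 1 + n - 1) = Q k := by
    intro k
    have e : k + 1 + n - 1 = k + n := by omega
    rw [e, hQ]
  have hedge : ∀ k, Q k - Q (k + n - 1) = dt (rt (θ k)) (Q k - Q (k + n - 1)) • rt (θ k) := by
    intro k
    apply eq_rt (unit k)
    rw [dt_sub, h1, onl, sub_self]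
  have hpos : ∀ k, 0 < dt (rt (θ k)) (Q k - Q (k + n - 1)) := by
    intro k
    have h3 := strict k (k + n - 1) (by omega) (by omega)
    have h4 := h1 (k + n - 1)
    have h5 : dt (θ (k + n - 1)) (Q k - Q (k + n - 1)) < 0 := by rw [dt_sub]; linarith
    rw [hedge k, dt_smul, dt_rt] at h5
    have h6 := gap (k + n - 1)
    have e : k + n - 1 + 1 = k + n := by omega
    rw [e, hθ] at h6
    by_contra hcon
    push Not at hcon
    nlinarith [mul_nonneg (neg_nonneg.2 hcon) h6.le]
  -- the vertices are strictly on the left of the other edges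
  have left1 : ∀ i k, i + 1 < k → k < i + n → dt (θ i) (Q (k + n - 1)) < η i := by
    intro i k hik hkn
    obtain ⟨k', rfl⟩ : ∃ k', k = k' + 1 := ⟨k - 1, by omega⟩
    have h3 := strict k' (i + n) (by omega) (by omega)
    rw [hθ, hη] at h3
    rw [hP1]
    exact h3
  have left2 : ∀ i j, i < j → j + 1 < i + n → dt (θ j) (Q (i + n - 1)) < η j := by
    intro i j hij hjn
    have h3 := strict (i + n - 1) (j + n) (by omega) (by omega)
    rw [hθ, hη] at h3
    exact h3
  have hcr : ∀ k x, cr (Q (k + 1 + n - 1) - Q (k + n - 1)) (x - Q (k + n - 1)) =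
      dt (rt (θ k)) (Q k - Q (k + n - 1)) * (η k - dt (θ k) x) := by
    intro k x
    rw [hP1]
    conv_lhs => rw [hedge k]
    rw [cr_smul_left, cr_rt, dt_sub (θ k) x, onl]
    ring
  have c1 : ∀ i k, i + 1 < k → k < i + n →
      0 < cr (Q (i + 1 + n - 1) - Q (i + n - 1)) (Q (k + n - 1) - Q (i + n - 1)) := by
    intro i k hik hkn
    rw [hcr]
    exact mul_pos (hpos i) (by linarith [left1 i k hik hkn])
  have c2 : ∀ i j, i < j → j + 1 < i + n →
      0 < cr (Q (j + n - 1) - Q (i + n - 1)) (Q (j + 1 + n - 1) - Q (i + n - 1)) := by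
    intro i j hij hjn
    have e : cr (Q (j + n - 1) - Q (i + n - 1)) (Q (j + 1 + n - 1) - Q (i + n - 1)) =
        cr (Q (j + 1 + n - 1) - Q (j + n - 1)) (Q (i + n - 1) - Q (j + n - 1)) := by
      simp only [cr, Prod.fst_sub, Prod.snd_sub]; ring
    rw [e, hcr]
    exact mul_pos (hpos j) (by linarith [left2 i j hij hjn])
  refine ⟨⟨hn, hθ, ?_, ?_, unit, hpos, ?_, ?_⟩, onl⟩
  · intro k
    have e : k + n + n - 1 = k + n - 1 + n := by omega
    rw [e, hQ]
  · intro k
    have e : k + n + n - 1 = k + n - 1 + n := by omega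
    rw [e, hQ, hQ, hθ]
  · intro k
    rw [hP1, ← hedge k]
    abel
  · intro i j k hij hjk hkn
    obtain ⟨d, rfl⟩ : ∃ d, k = j + 1 + d := ⟨k - (j + 1), by omega⟩
    clear hjk
    induction d with
    | zero => exact c2 i j hij hkn
    | succ d ih =>
      have ih' := ih (by omega)
      rcases Nat.lt_or_ge (i + 1) j with hj | hj
      · have p1 := c1 i (j + 1 + d) (by omega) (by omega)
        have p2 := c1 i j hj (by omega)
        have p3 := c2 i (j + 1 + d) (by omega) (by omega)
        have p4 := c1 i (j + 1 + d + 1) (by omega) (by omega)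
        have p5 := plk4 (Q (i + 1 + n - 1) - Q (i + n - 1)) (Q (j + n - 1) - Q (i + n - 1))
          (Q (j + 1 + d + n - 1) - Q (i + n - 1)) (Q (j + 1 + d + 1 + n - 1) - Q (i + n - 1))
        have p6 := mul_pos p2 p3
        have p7 := mul_pos p4 ih'
        have p8 : 0 < cr (Q (i + 1 + n - 1) - Q (i + n - 1)) (Q (j + 1 + d + n - 1) - Q (i + n - 1)) *
            cr (Q (j + n - 1) - Q (i + n - 1)) (Q (j + 1 + d + 1 + n - 1) - Q (i + n - 1)) := by
          rw [p5]; linarith
        exact (pos_iff_pos_of_mul_pos p8).1 p1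
      · have hj' : j = i + 1 := by omega
        subst hj'
        exact c1 i (i + 1 + 1 + (d + 1)) (by omega) (by omega)

/-! ### Angles -/

/-- the unit vector with angle `2πm/N` -/
noncomputable def uu (N m : ℕ) : R2 :=
  (Real.cos (2 * Real.pi * (m : ℝ) / N), Real.sin (2 * Real.pi * (m : ℝ) / N))

theorem uu_add {N : ℕ} (hN : 0 < N) (m q : ℕ) : uu N (m + N * q) = uu N m := by
  have hN' : (N : ℝ) ≠ 0 := by positivity
  have e : 2 * Real.pi * ((m + N * q : ℕ) : ℝ) / N = 2 * Real.pi * (m : ℝ) / N + (q : ℤ) * (2 * Real.pi) := by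
    push_cast
    field_simp
  unfold uu
  rw [e, Real.cos_add_int_mul_two_pi, Real.sin_add_int_mul_two_pi]

theorem uu_unit (N m : ℕ) : dt (uu N m) (uu N m) = 1 := by
  simp only [uu, dt]
  nlinarith [Real.sin_sq_add_cos_sq (2 * Real.pi * (m : ℝ) / N)]

theorem cr_uu (N : ℕ) {m m' : ℕ} (h : m ≤ m') :
    cr (uu N m) (uu N m') = Real.sin (2 * Real.pi * ((m' - m : ℕ) : ℝ) / N) := by
  have e : 2 * Real.pi * ((m' - m : ℕ) : ℝ) / N =
      2 * Real.pi * (m' : ℝ) / N - 2 * Real.pi * (m : ℝ) / N := by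
    rw [Nat.cast_sub h]; ring
  rw [e, Real.sin_sub]
  simp only [cr, uu]
  ring

theorem cr_pos {N m m' : ℕ} (h : m < m') (h2 : 2 * (m' - m) < N) :
    0 < cr (uu N m) (uu N m') := by
  rw [cr_uu N h.le]
  have hN : (0 : ℝ) < N := by exact_mod_cast (by omega : 0 < N)
  have h3 : (0 : ℝ) < ((m' - m : ℕ) : ℝ) := by exact_mod_cast (by omega : 0 < m' - m)
  have h4 : 2 * ((m' - m : ℕ) : ℝ) < N := by exact_mod_cast h2
  have hpi := Real.pi_pos
  apply Real.sin_pos_of_pos_of_lt_pi (by positivity)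
  rw [div_lt_iff₀ hN]
  nlinarith

theorem cr_nonneg {N m m' : ℕ} (h : m ≤ m') (h2 : 2 * (m' - m) ≤ N) (hN : 0 < N) :
    0 ≤ cr (uu N m) (uu N m') := by
  rw [cr_uu N h]
  have hN : (0 : ℝ) < N := by exact_mod_cast hN
  have h3 : (0 : ℝ) ≤ ((m' - m : ℕ) : ℝ) := by positivity
  have h4 : 2 * ((m' - m : ℕ) : ℝ) ≤ N := by exact_mod_cast h2
  have hpi := Real.pi_pos
  apply Real.sin_nonneg_of_nonneg_of_le_pi (by positivity)
  rw [div_le_iff₀ hN]
  nlinarith

theorem cr_nonpos {N m m' : ℕ} (h : m ≤ m') (h2 : N ≤ 2 * (m' - m)) (h5 : m' - m ≤ N) (hN : 0 < N) :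
    cr (uu N m) (uu N m') ≤ 0 := by
  rw [cr_uu N h]
  have hN : (0 : ℝ) < N := by exact_mod_cast hN
  have h3 : ((m' - m : ℕ) : ℝ) ≤ N := by exact_mod_cast h5
  have h4 : (N : ℝ) ≤ 2 * ((m' - m : ℕ) : ℝ) := by exact_mod_cast h2
  have hpi := Real.pi_pos
  have e : Real.sin (2 * Real.pi * ((m' - m : ℕ) : ℝ) / N) =
      -Real.sin (2 * Real.pi * ((m' - m : ℕ) : ℝ) / N - Real.pi) := by
    rw [Real.sin_sub_pi, neg_neg]
  rw [e, neg_nonpos]
  have h6 : Real.pi ≤ 2 * Real.pi * ((m' - m : ℕ) : ℝ) / N := by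
    rw [le_div_iff₀ hN]; nlinarith
  have h7 : 2 * Real.pi * ((m' - m : ℕ) : ℝ) / N ≤ 2 * Real.pi := by
    rw [div_le_iff₀ hN]; nlinarith
  exact Real.sin_nonneg_of_nonneg_of_le_pi (by linarith) (by linarith)

theorem cr_neg {N m m' : ℕ} (h : m ≤ m') (h2 : N < 2 * (m' - m)) (h5 : m' - m < N) :
    cr (uu N m) (uu N m') < 0 := by
  rw [cr_uu N h]
  have hN : (0 : ℝ) < N := by exact_mod_cast (by omega : 0 < N)
  have h3 : ((m' - m : ℕ) : ℝ) < N := by exact_mod_cast h5
  have h4 : (N : ℝ) < 2 * ((m' - m : ℕ) : ℝ) := by exact_mod_cast h2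
  have hpi := Real.pi_pos
  have e : Real.sin (2 * Real.pi * ((m' - m : ℕ) : ℝ) / N) =
      -Real.sin (2 * Real.pi * ((m' - m : ℕ) : ℝ) / N - Real.pi) := by
    rw [Real.sin_sub_pi, neg_neg]
  rw [e, neg_lt_zero]
  have h6 : Real.pi < 2 * Real.pi * ((m' - m : ℕ) : ℝ) / N := by
    rw [lt_div_iff₀ hN]; nlinarith
  have h7 : 2 * Real.pi * ((m' - m : ℕ) : ℝ) / N < 2 * Real.pi := by
    rw [div_lt_iff₀ hN]; nlinarith
  exact Real.sin_pos_of_pos_of_lt_pi (by linarith) (by linarith)

/-- the direction in the middle of a large gap -/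
theorem gap_dir {N m0 m1 m : ℕ} (hN : 0 < N) (h1 : m0 ≤ m1) (h2 : N ≤ 2 * (m1 - m0)) (h3 : m1 ≤ m)
    (h4 : m ≤ m0 + N) : dt (uu N m) (Real.cos (Real.pi * ((m0 : ℝ) + m1) / N),
      Real.sin (Real.pi * ((m0 : ℝ) + m1) / N)) ≤ 0 := by
  have hN' : (0 : ℝ) < N := by exact_mod_cast hN
  have hpi := Real.pi_pos
  have g2 : (N : ℝ) ≤ 2 * ((m1 : ℝ) - m0) := by
    have : (N : ℝ) ≤ 2 * ((m1 - m0 : ℕ) : ℝ) := by exact_mod_cast h2
    rwa [Nat.cast_sub h1] at this
  have g3 : (m1 : ℝ) ≤ m := by exact_mod_cast h3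
  have g4 : (m : ℝ) ≤ m0 + N := by exact_mod_cast h4
  have e : dt (uu N m) (Real.cos (Real.pi * ((m0 : ℝ) + m1) / N),
      Real.sin (Real.pi * ((m0 : ℝ) + m1) / N)) =
      Real.cos (2 * Real.pi * (m : ℝ) / N - Real.pi * ((m0 : ℝ) + m1) / N) := by
    rw [Real.cos_sub]
    simp only [dt, uu]
  rw [e]
  have e2 : 2 * Real.pi * (m : ℝ) / N - Real.pi * ((m0 : ℝ) + m1) / N =
      Real.pi * (2 * m - m0 - m1) / N := by ring
  rw [e2]
  apply Real.cos_nonpos_of_pi_div_two_le_of_le
  · rw [le_div_iff₀ hN']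
    nlinarith
  · rw [div_le_iff₀ hN']
    nlinarith

/-! ### Enumeration of a set of residues -/

/-- the elements of `A` in increasing order, continued periodically -/
noncomputable def bb {N : ℕ} (A : Finset (Fin N)) (hA : 0 < A.card) (k : ℕ) : ℕ :=
  (A.orderEmbOfFin rfl ⟨k % A.card, Nat.mod_lt _ hA⟩ : ℕ) + N * (k / A.card)

section enum
variable {N : ℕ} (A : Finset (Fin N)) (hA : 0 < A.card)

theorem bb_per (k : ℕ) : bb A hA (k + A.card) = bb A hA k + N := by
  unfold bb
  have e1 : (k + A.card) % A.card = k % A.card := Nat.add_mod_right _ _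
  have e2 : (k + A.card) / A.card = k / A.card + 1 := Nat.add_div_right _ hA
  simp only [e1, e2]
  ring

theorem bb_lt (k : ℕ) : bb A hA k < bb A hA (k + 1) := by
  unfold bb
  have hk := Nat.mod_lt k hA
  rcases Nat.lt_or_ge (k % A.card + 1) A.card with h | h
  · have e1 : (k + 1) % A.card = k % A.card + 1 := by
      rw [Nat.add_mod, Nat.mod_eq_of_lt (by omega : 1 < A.card), Nat.mod_eq_of_lt h]
    have e2 : (k + 1) / A.card = k / A.card := by
      have h1 := Nat.div_add_mod k A.card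
      have h2 := Nat.div_add_mod (k + 1) A.card
      rw [e1] at h2
      have h3 : A.card * ((k + 1) / A.card) = A.card * (k / A.card) := by omega
      exact Nat.eq_of_mul_eq_mul_left hA h3
    rw [e2]
    have h3 : A.orderEmbOfFin rfl ⟨k % A.card, Nat.mod_lt _ hA⟩ <
        A.orderEmbOfFin rfl ⟨(k + 1) % A.card, Nat.mod_lt _ hA⟩ := by
      rw [OrderEmbedding.lt_iff_lt, Fin.mk_lt_mk, e1]
      omega
    have h4 : ((A.orderEmbOfFin rfl ⟨k % A.card, Nat.mod_lt _ hA⟩ : Fin N) : ℕ) <
        (A.orderEmbOfFin rfl ⟨(k + 1) % A.card, Nat.mod_lt _ hA⟩ : Fin N) := h3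
    omega
  · have e0 : k % A.card + 1 = A.card := by omega
    have e2 : (k + 1) / A.card = k / A.card + 1 := by
      have h1 := Nat.div_add_mod k A.card
      have h3 : k + 1 = A.card * (k / A.card + 1) := by
        rw [Nat.mul_add, mul_one]; omega
      rw [h3, Nat.mul_div_cancel_left _ hA]
    rw [e2, Nat.mul_add, mul_one]
    have h4 := (A.orderEmbOfFin rfl ⟨k % A.card, Nat.mod_lt _ hA⟩ : Fin N).isLt
    omega

theorem bb_mono : StrictMono (bb A hA) := strictMono_nat_of_lt_succ (bb_lt A hA)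

/-- the index in `Fin N` -/
noncomputable def aa (k : ℕ) : Fin N := A.orderEmbOfFin rfl ⟨k % A.card, Nat.mod_lt _ hA⟩

theorem aa_mem (k : ℕ) : aa A hA k ∈ A := A.orderEmbOfFin_mem rfl _

theorem bb_eq (k : ℕ) : bb A hA k = (aa A hA k : ℕ) + N * (k / A.card) := rfl

theorem nrm_aa (k : ℕ) : nrm N (aa A hA k) = uu N (bb A hA k) := by
  have hN : 0 < N := (aa A hA k).pos
  rw [bb_eq, uu_add hN]
  rfl

theorem aa_ne {k k' : ℕ} (h : k < k') (h' : k' < k + A.card) : aa A hA k ≠ aa A hA k' := by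
  intro he
  have h1 : bb A hA k < bb A hA k' := bb_mono A hA h
  have h2 : bb A hA k' < bb A hA k + N := by
    rw [← bb_per]
    exact bb_mono A hA h'
  have h3 : bb A hA k % N = bb A hA k' % N := by
    rw [bb_eq, bb_eq, Nat.add_mul_mod_self_left, Nat.add_mul_mod_self_left, he]
  have h4 : N ∣ bb A hA k' - bb A hA k := (Nat.modEq_iff_dvd' h1.le).1 h3
  have h5 := Nat.le_of_dvd (by omega) h4
  omega

/-- every element of `A` is hit in every period -/
theorem hit (k : ℕ) {i : Fin N} (hi : i ∈ A) : ∃ j, k + 1 ≤ j ∧ j ≤ k + A.card ∧ aa A hA j = i := by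
  have h1 : i ∈ Set.range (A.orderEmbOfFin rfl) := by
    rw [Finset.range_orderEmbOfFin]
    exact hi
  obtain ⟨t, rfl⟩ := h1
  -- choose `j` in the period with residue `t`
  obtain ⟨j, hj1, hj2, hj3⟩ : ∃ j, k + 1 ≤ j ∧ j ≤ k + A.card ∧ j % A.card = t := by
    refine ⟨k + 1 + ((t : ℕ) + A.card * (k + 1) - (k + 1)) % A.card, by omega, ?_, ?_⟩
    · have := Nat.mod_lt ((t : ℕ) + A.card * (k + 1) - (k + 1)) hA
      omega
    · have h2 : k + 1 ≤ A.card * (k + 1) := Nat.le_mul_of_pos_left _ hA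
      rw [Nat.add_mod, Nat.mod_mod, ← Nat.add_mod]
      have e : k + 1 + ((t : ℕ) + A.card * (k + 1) - (k + 1)) = (t : ℕ) + A.card * (k + 1) := by
        omega
      rw [e, Nat.add_mul_mod_self_left, Nat.mod_eq_of_lt t.isLt]
  refine ⟨j, hj1, hj2, ?_⟩
  unfold aa
  congr 1
  exact Fin.ext hj3

end enum

end GO

/-- constraints from a subset -/
def HS {N : ℕ} (h : Fin N → ℝ) (A : Finset (Fin N)) : Set R2 := {x | ∀ i ∈ A, dt (nrm N i) x ≤ h i}

theorem HS_univ {N : ℕ} (h : Fin N → ℝ) : HS h Finset.univ = HP (nrm N) h := by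
  ext x
  simp [HS, HP]

open GO in
theorem blk_GO : Stmt_NR → Stmt_GO := by
  classical
  intro hNR N h hN3 hh
  have hN : 0 < N := by omega
  have hbdd := (hNR N hN3).1.bdd h
  -- a minimal family
  obtain ⟨A, hA1, hA2⟩ : ∃ A : Finset (Fin N), HS h A = HP (nrm N) h ∧
      ∀ i ∈ A, HS h (A.erase i) ≠ HP (nrm N) h := by
    obtain ⟨A, hA, hmin⟩ := Finset.exists_min_image
      (Finset.univ.filter fun A : Finset (Fin N) => HS h A = HP (nrm N) h) Finset.card
      ⟨Finset.univ, by simp [HS_univ]⟩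
    refine ⟨A, (Finset.mem_filter.1 hA).2, fun i hi he => ?_⟩
    have h1 := hmin (A.erase i) (Finset.mem_filter.2 ⟨Finset.mem_univ _, he⟩)
    have h2 := Finset.card_erase_lt_of_mem hi
    omega
  -- no direction is unconstrained
  have nodir : ∀ w : R2, w ≠ 0 → ∃ i ∈ A, 0 < dt (nrm N i) w := by
    intro w hw
    by_contra hcon
    push Not at hcon
    obtain ⟨C, hC⟩ := hbdd.exists_norm_le
    have hw0 : 0 < ‖w‖ := norm_pos_iff.2 hw
    have hmem : ∀ t : ℝ, 0 ≤ t → t • w ∈ HP (nrm N) h := by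
      intro t ht
      rw [← hA1]
      intro i hi
      rw [dt_smul]
      have := mul_nonneg ht (neg_nonneg.2 (hcon i hi))
      linarith [hh i]
    have h1 := hC _ (hmem ((|C| + 1) / ‖w‖) (by positivity))
    rw [norm_smul, Real.norm_of_nonneg (by positivity), div_mul_cancel₀ _ hw0.ne'] at h1
    linarith [le_abs_self C]
  have hAc : 0 < A.card := by
    rw [Finset.card_pos]
    obtain ⟨i, hi, -⟩ := nodir (1, 0) (by simp)
    exact ⟨i, hi⟩
  set b := bb A hAc with hb
  set a := aa A hAc with ha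
  have bmono : StrictMono b := bb_mono A hAc
  have bper : ∀ k, b (k + A.card) = b k + N := bb_per A hAc
  -- the gaps are small
  have gap2 : ∀ k, 2 * (b (k + 1) - b k) < N := by
    intro k
    by_contra hcon
    push Not at hcon
    have hlt : b k < b (k + 1) := bmono (Nat.lt_succ_self k)
    obtain ⟨i, hi, hpos⟩ := nodir (Real.cos (Real.pi * ((b k : ℝ) + b (k + 1)) / N),
      Real.sin (Real.pi * ((b k : ℝ) + b (k + 1)) / N)) (by
        intro h0
        have h1 := congrArg Prod.fst h0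
        have h2 := congrArg Prod.snd h0
        simp only [Prod.fst_zero, Prod.snd_zero] at h1 h2
        have h3 := Real.sin_sq_add_cos_sq (Real.pi * ((b k : ℝ) + b (k + 1)) / N)
        rw [h1, h2] at h3
        norm_num at h3)
    obtain ⟨j, hj1, hj2, rfl⟩ := hit A hAc k hi
    rw [nrm_aa] at hpos
    have h1 : b (k + 1) ≤ b j := bmono.monotone hj1
    have h2 : b j ≤ b k + N := by rw [← bper]; exact bmono.monotone hj2
    exact absurd (gap_dir hN hlt.le hcon h1 h2) (not_le.2 hpos)
  have hn3 : 3 ≤ A.card := by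
    by_contra hcon
    push Not at hcon
    have g0 := gap2 0
    have g1 := gap2 1
    have m0 : b 0 < b 1 := bmono (by omega)
    have m1 : b 1 < b 2 := bmono (by omega)
    have hp := bper 0
    rcases (by omega : A.card = 1 ∨ A.card = 2) with hc | hc
    · rw [hc] at hp
      simp only [Nat.zero_add] at hp g0
      omega
    · rw [hc] at hp
      simp only [Nat.zero_add, Nat.reduceAdd] at hp g0 g1
      omega
  set θ : ℕ → R2 := fun k => nrm N (a k) with hθ
  have hθu : ∀ k, θ k = uu N (b k) := fun k => nrm_aa A hAc k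
  set η : ℕ → ℝ := fun k => h (a k) with hη
  have aper : ∀ k, a (k + A.card) = a k := by
    intro k
    simp only [ha, aa]
    congr 1
    exact Fin.ext (Nat.add_mod_right _ _)
  have gap : ∀ k, 0 < cr (θ k) (θ (k + 1)) := by
    intro k
    rw [hθu, hθu]
    exact cr_pos (bmono (Nat.lt_succ_self k)) (gap2 k)
  set Q : ℕ → R2 := fun k => ix (θ k) (θ (k + 1)) (η k) (η (k + 1)) with hQ
  have q1 : ∀ k, dt (θ k) (Q k) = η k := fun k => dt_ix_left _ _ (gap k).ne'
  have q2 : ∀ k, dt (θ (k + 1)) (Q k) = η (k + 1) := fun k => dt_ix_right _ _ (gap k).ne'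
  have strict : ∀ i j, i + 1 < j → j < i + A.card → dt (θ j) (Q i) < η j := by
    intro i j hij hjn
    have mij : b (i + 1) < b j := bmono hij
    have mi : b i < b (i + 1) := bmono (Nat.lt_succ_self i)
    have mjn : b j < b i + N := by rw [← bper]; exact bmono hjn
    have gi := gap i
    have pk := plk (θ i) (θ (i + 1)) (θ j)
    have hji : cr (θ j) (θ i) = -cr (θ i) (θ j) := by simp only [cr]; ring
    by_contra hcon
    push Not at hcon
    rcases Nat.lt_or_ge (2 * (b j - b i)) N with hA' | hA'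
    · -- the constraint `i + 1` is implied by `i` and `j`
      have c1 : 0 < cr (θ i) (θ j) := by
        rw [hθu, hθu]; exact cr_pos (by omega) hA'
      have c2 : 0 < cr (θ (i + 1)) (θ j) := by
        rw [hθu, hθu]; exact cr_pos mij (by omega)
      apply hA2 (a (i + 1)) (aa_mem A hAc (i + 1))
      rw [← hA1]
      apply Set.Subset.antisymm
      · intro x hx s hs
        by_cases hsi : s = a (i + 1)
        · subst hsi
          have x1 : dt (θ i) x ≤ η i := hx (a i) (Finset.mem_erase.2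
            ⟨aa_ne A hAc (Nat.lt_succ_self i) (by omega), aa_mem A hAc i⟩)
          have x2 : dt (θ j) x ≤ η j := hx (a j) (Finset.mem_erase.2
            ⟨(aa_ne A hAc hij (by omega)).symm, aa_mem A hAc j⟩)
          change dt (θ (i + 1)) x ≤ η (i + 1)
          have e1 := pk x
          have e2 := pk (Q i)
          rw [q1, q2] at e2
          rw [hji] at e1 e2
          by_contra hlt
          push Not at hlt
          nlinarith [mul_nonneg c2.le (sub_nonneg.2 x1), mul_nonneg gi.le (sub_nonneg.2 x2),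
            mul_pos c1 (sub_pos.2 hlt), mul_nonneg gi.le (sub_nonneg.2 hcon)]
        · exact hx s (Finset.mem_erase.2 ⟨hsi, hs⟩)
      · intro x hx s hs
        exact hx s (Finset.mem_of_mem_erase hs)
    · rcases Nat.lt_or_ge N (2 * (b j - b (i + 1))) with hB | hB
      · -- the constraint `i` is implied by `j` and `i + 1`
        have c1 : cr (θ (i + 1)) (θ j) < 0 := by
          rw [hθu, hθu]; exact cr_neg mij.le hB (by omega)
        have c2 : cr (θ i) (θ j) < 0 := by
          rw [hθu, hθu]; exact cr_neg (by omega) (by omega) (by omega)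
        apply hA2 (a i) (aa_mem A hAc i)
        rw [← hA1]
        apply Set.Subset.antisymm
        · intro x hx s hs
          by_cases hsi : s = a i
          · subst hsi
            have x1 : dt (θ (i + 1)) x ≤ η (i + 1) := hx (a (i + 1)) (Finset.mem_erase.2
              ⟨(aa_ne A hAc (Nat.lt_succ_self i) (by omega)).symm, aa_mem A hAc (i + 1)⟩)
            have x2 : dt (θ j) x ≤ η j := hx (a j) (Finset.mem_erase.2
              ⟨(aa_ne A hAc (by omega : i < j) (by omega)).symm, aa_mem A hAc j⟩)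
            change dt (θ i) x ≤ η i
            have e1 := pk x
            have e2 := pk (Q i)
            rw [q1, q2] at e2
            rw [hji] at e1 e2
            by_contra hlt
            push Not at hlt
            nlinarith [mul_nonneg (neg_nonneg.2 c2.le) (sub_nonneg.2 x1),
              mul_nonneg gi.le (sub_nonneg.2 x2),
              mul_pos (neg_pos.2 c1) (sub_pos.2 hlt), mul_nonneg gi.le (sub_nonneg.2 hcon)]
          · exact hx s (Finset.mem_erase.2 ⟨hsi, hs⟩)
        · intro x hx s hs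
          exact hx s (Finset.mem_of_mem_erase hs)
      · -- the opposite normal is in the cone of `i` and `i + 1`
        have c1 : 0 ≤ cr (θ (i + 1)) (θ j) := by
          rw [hθu, hθu]; exact cr_nonneg mij.le hB hN
        have c2 : cr (θ i) (θ j) ≤ 0 := by
          rw [hθu, hθu]; exact cr_nonpos (by omega) hA' (by omega) hN
        have e2 := pk (Q i)
        rw [q1, q2, hji] at e2
        have p1 : 0 < η i := hh _
        have p2 : 0 < η (i + 1) := hh _
        have p3 : 0 < η j := hh _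
        nlinarith [mul_nonneg c1 p1.le, mul_nonneg (neg_nonneg.2 c2) p2.le,
          mul_pos gi (lt_of_lt_of_le p3 hcon)]
  obtain ⟨hG, hon⟩ := core A.card hn3 θ η Q
    (fun k => by simp only [hθ, aper]) (fun k => by simp only [hη, aper])
    (fun k => by
      have e : k + A.card + 1 = k + 1 + A.card := by omega
      simp only [hQ, hθ, hη, e, aper])
    (fun k => by rw [hθu]; exact uu_unit N _) gap q1 q2 strict
  refine ⟨A.card, a, _, _, hG, hon, ?_⟩
  rw [← hA1]
  ext x
  constructor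
  · intro hx k
    change dt (θ k) x ≤ dt (θ k) (Q (k + A.card - 1))
    rw [hon]
    exact hx (a k) (aa_mem A hAc k)
  · intro hx s hs
    obtain ⟨j, -, -, rfl⟩ := hit A hAc 0 hs
    have h1 := hx ⟨j % A.card, Nat.mod_lt _ hAc⟩
    change dt (θ (j % A.card)) x ≤ dt (θ (j % A.card)) (Q (j % A.card + A.card - 1)) at h1
    rw [hon] at h1
    have e : a (j % A.card) = a j := by
      simp only [ha, aa]
      congr 1
      exact Fin.ext (Nat.mod_mod _ _)
    simp only [hθ, hη, e] at h1
    exact h1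

end Pool.LBM
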