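import Pool.Agent.Work.MP_b5407d_lbm.Interface

set_option autoImplicit false

/-! # Block SCA: the scaling field -/

open MeasureTheory Set Filter Topology

namespace Pool.LBM

namespace SCA

/-- the linear form `dt l` -/
noncomputable def dl (l : R2) : R2 →L[ℝ] ℝ :=
  l.1 • ContinuousLinearMap.fst ℝ ℝ ℝ + l.2 • ContinuousLinearMap.snd ℝ ℝ ℝ

theorem dl_apply (l x : R2) : dl l x = dt l x := by
  simp [dl, dt]

theorem hasFDerivAt_ex (l x : R2) : HasFDerivAt (ex l) (ex l x • dl l) x := by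
  have h1 : HasFDerivAt (fun y : R2 => dl l y) (dl l) x := (dl l).hasFDerivAt
  have h2 := h1.exp
  have e1 : (fun y : R2 => Real.exp (dl l y)) = ex l := by
    funext y; rw [dl_apply]; rfl
  rw [e1] at h2
  have e2 : Real.exp (dl l x) = ex l x := by rw [dl_apply]; rfl
  rw [e2] at h2
  exact h2

theorem contDiff_ex (l : R2) : ContDiff ℝ 1 (ex l) := by
  unfold ex dt
  fun_prop

theorem continuous_ex (l : R2) : Continuous (ex l) := (contDiff_ex l).continuous

theorem continuous_dt (l : R2) : Continuous (fun x : R2 => dt l x) := by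
  unfold dt
  fun_prop

theorem isClosed_gp (n : ℕ) (θ P : ℕ → R2) : IsClosed (GP n θ P) := by
  have : GP n θ P = ⋂ k : Fin n, {x | dt (θ k) x ≤ dt (θ k) (P k)} := by
    ext x
    simp [GP, HP, gth, gh]
  rw [this]
  exact isClosed_iInter fun k => isClosed_le (continuous_dt _) continuous_const

theorem isCompact_gp (hGN : Stmt_GN) {n : ℕ} {θ P : ℕ → R2} {ℓ : ℕ → ℝ} (hG : Gon n θ P ℓ) :
    IsCompact (GP n θ P) :=
  Metric.isCompact_of_isClosed_isBounded (isClosed_gp n θ P) ((hGN n θ P ℓ hG).1.bdd _)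

theorem intOn (hGN : Stmt_GN) {n : ℕ} {θ P : ℕ → R2} {ℓ : ℕ → ℝ} (hG : Gon n θ P ℓ) {f : R2 → ℝ}
    (hf : Continuous f) : IntegrableOn f (GP n θ P) :=
  hf.continuousOn.integrableOn_compact (isCompact_gp hGN hG)

theorem gj_pos (hGN : Stmt_GN) {n : ℕ} {θ P : ℕ → R2} {ℓ : ℕ → ℝ} (hG : Gon n θ P ℓ) (l : R2) :
    0 < GJ n θ P l := by
  unfold GJ
  rw [setIntegral_pos_iff_support_of_nonneg_ae (f := ex l)
    (Eventually.of_forall fun x => (Real.exp_pos _).le) (intOn hGN hG (continuous_ex l))]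
  have hs : Function.support (ex l) = univ := by
    ext x
    simp only [Function.mem_support, mem_univ, iff_true]
    exact (Real.exp_pos _).ne'
  rw [hs, univ_inter]
  obtain ⟨x, hx⟩ := (hGN n θ P ℓ hG).2.1
  have hopen : IsOpen {x : R2 | ∀ k : Fin n, dt (gth n θ k) x < gh n θ P k} := by
    have : {x : R2 | ∀ k : Fin n, dt (gth n θ k) x < gh n θ P k} =
        ⋂ k : Fin n, {x | dt (gth n θ k) x < gh n θ P k} := by
      ext x
      simp
    rw [this]
    exact isOpen_iInter_of_finite fun k => isOpen_lt (continuous_dt _) continuous_const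
  refine lt_of_lt_of_le (hopen.measure_pos volume ⟨x, hx⟩) (measure_mono ?_)
  intro y hy k
  exact (hy k).le

/-- the points of the edge are on the line -/
theorem dt_edge {θ P : ℕ → R2} (k : ℕ) (s : ℝ) :
    dt (θ k) (P k + s • rt (θ k)) = dt (θ k) (P k) := by
  simp only [dt, rt, Prod.fst_add, Prod.snd_add, Prod.smul_fst, Prod.smul_snd, smul_eq_mul]
  ring

theorem continuous_edge {f : R2 → ℝ} (hf : Continuous f) (θ P : ℕ → R2) (k : ℕ) :
    Continuous fun s : ℝ => f (P k + s • rt (θ k)) := by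
  fun_prop

theorem edge_sum {G : R2 → ℝ} (hG : Continuous G) (θ P : ℕ → R2) (ℓ : ℕ → ℝ) (k : ℕ) :
    dt (θ k) (1, 0) * EI (fun x => x.1 * G x) θ P ℓ k +
      dt (θ k) (0, 1) * EI (fun x => x.2 * G x) θ P ℓ k = dt (θ k) (P k) * EI G θ P ℓ k := by
  unfold EI
  rw [← intervalIntegral.integral_const_mul, ← intervalIntegral.integral_const_mul,
    ← intervalIntegral.integral_const_mul, ← intervalIntegral.integral_add]
  · refine intervalIntegral.integral_congr fun s _ => ?_
    change _ = dt (θ k) (P k) * G (P k + s • rt (θ k))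
    rw [← dt_edge (P := P) k s]
    simp only [dt]
    ring
  · apply Continuous.intervalIntegrable
    fun_prop
  · apply Continuous.intervalIntegrable
    fun_prop

/-- divergence theorem for the field `x G(x)` -/
theorem scal (hGR : Stmt_GR) (hGN : Stmt_GN) {n : ℕ} {θ P : ℕ → R2} {ℓ : ℕ → ℝ}
    (hG : Gon n θ P ℓ) {G : R2 → ℝ} (hd : ContDiff ℝ 1 G) :
    ∑ k ∈ Finset.range n, dt (θ k) (P k) * EI G θ P ℓ k =
      ∫ x in GP n θ P, (2 * G x + fderiv ℝ G x x) := by
  have d1 : ContDiff ℝ 1 (fun x : R2 => x.1 * G x) := contDiff_fst.mul hd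
  have d2 : ContDiff ℝ 1 (fun x : R2 => x.2 * G x) := contDiff_snd.mul hd
  have h1 := hGR n θ P ℓ hG (fun x => x.1 * G x) d1 (1, 0)
  have h2 := hGR n θ P ℓ hG (fun x => x.2 * G x) d2 (0, 1)
  have e1 : ∀ x : R2, fderiv ℝ (fun x : R2 => x.1 * G x) x (1, 0) =
      x.1 * fderiv ℝ G x (1, 0) + G x := by
    intro x
    have h3 := (hasFDerivAt_fst (𝕜 := ℝ) (E := ℝ) (F := ℝ) (p := x)).mul
      (hd.differentiable one_ne_zero x).hasFDerivAt
    have h4 := h3.fderiv
    change fderiv ℝ (fun x : R2 => x.1 * G x) x = _ at h4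
    rw [h4]
    simp
  have e2 : ∀ x : R2, fderiv ℝ (fun x : R2 => x.2 * G x) x (0, 1) =
      x.2 * fderiv ℝ G x (0, 1) + G x := by
    intro x
    have h3 := (hasFDerivAt_snd (𝕜 := ℝ) (E := ℝ) (F := ℝ) (p := x)).mul
      (hd.differentiable one_ne_zero x).hasFDerivAt
    have h4 := h3.fderiv
    change fderiv ℝ (fun x : R2 => x.2 * G x) x = _ at h4
    rw [h4]
    simp
  have e3 : ∀ x : R2, fderiv ℝ (fun x : R2 => x.1 * G x) x (1, 0) +
      fderiv ℝ (fun x : R2 => x.2 * G x) x (0, 1) = 2 * G x + fderiv ℝ G x x := by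
    intro x
    rw [e1, e2]
    have h5 : fderiv ℝ G x x = x.1 * fderiv ℝ G x (1, 0) + x.2 * fderiv ℝ G x (0, 1) := by
      have h6 : x = x.1 • ((1 : ℝ), (0 : ℝ)) + x.2 • ((0 : ℝ), (1 : ℝ)) := by
        ext <;> simp
      conv_lhs => rw [h6]
      rw [map_add, map_smul, map_smul, smul_eq_mul, smul_eq_mul, ← h6]
    rw [h5]
    ring
  have i1 : IntegrableOn (fun x : R2 => fderiv ℝ (fun x : R2 => x.1 * G x) x (1, 0)) (GP n θ P) :=
    intOn hGN hG ((d1.continuous_fderiv one_ne_zero).clm_apply continuous_const)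
  have i2 : IntegrableOn (fun x : R2 => fderiv ℝ (fun x : R2 => x.2 * G x) x (0, 1)) (GP n θ P) :=
    intOn hGN hG ((d2.continuous_fderiv one_ne_zero).clm_apply continuous_const)
  have h7 : ∫ x in GP n θ P, (2 * G x + fderiv ℝ G x x) =
      (∫ x in GP n θ P, fderiv ℝ (fun x : R2 => x.1 * G x) x (1, 0)) +
      ∫ x in GP n θ P, fderiv ℝ (fun x : R2 => x.2 * G x) x (0, 1) := by
    rw [← integral_add i1 i2]
    exact integral_congr_ae (Eventually.of_forall fun x => (e3 x).symm)
  rw [h7, h1, h2, ← Finset.sum_add_distrib]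
  refine Finset.sum_congr rfl fun k _ => ?_
  rw [edge_sum hd.continuous]

theorem dt_neg_left (l x : R2) : dt (-l) x = -dt l x := by
  simp only [dt, Prod.fst_neg, Prod.snd_neg]; ring

/-- the area integrals: `F` with `x . ∇ F = c F` -/
theorem area (hGR : Stmt_GR) (hGN : Stmt_GN) {n : ℕ} {θ P : ℕ → R2} {ℓ : ℕ → ℝ}
    (hG : Gon n θ P ℓ) (l : R2) {F : R2 → ℝ} (hF : ContDiff ℝ 1 F) (c : ℝ)
    (hc : ∀ x, fderiv ℝ F x x = c * F x) :
    dII n θ P ℓ l (-l) P F = (2 + c) * ∫ x in GP n θ P, F x * ex l x := by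
  have hd : ContDiff ℝ 1 (fun x : R2 => F x * ex l x) := hF.mul (contDiff_ex l)
  unfold dII
  rw [scal hGR hGN hG hd]
  have e1 : ∀ x : R2, fderiv ℝ (fun x : R2 => F x * ex l x) x x =
      F x * (ex l x * dt l x) + ex l x * (c * F x) := by
    intro x
    have h3 := (hF.differentiable one_ne_zero x).hasFDerivAt.mul (hasFDerivAt_ex l x)
    have h4 := h3.fderiv
    change fderiv ℝ (fun x : R2 => F x * ex l x) x = _ at h4
    rw [h4]
    simp only [add_apply, smul_apply, smul_eq_mul,
      dl_apply, hc]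
  have cF := hF.continuous
  have cE := continuous_ex l
  have cD := continuous_dt l
  have i1 : IntegrableOn (fun x : R2 => 2 * (F x * ex l x) +
      fderiv ℝ (fun x : R2 => F x * ex l x) x x) (GP n θ P) := by
    apply intOn hGN hG
    have : (fun x : R2 => 2 * (F x * ex l x) + fderiv ℝ (fun x : R2 => F x * ex l x) x x) =
        fun x : R2 => 2 * (F x * ex l x) + (F x * (ex l x * dt l x) + ex l x * (c * F x)) := by
      funext x; rw [e1]
    rw [this]
    fun_prop
  have i2 : IntegrableOn (fun x : R2 => F x * dt (-l) x * ex l x) (GP n θ P) := by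
    apply intOn hGN hG
    have := continuous_dt (-l)
    fun_prop
  rw [← integral_add i1 i2, ← integral_const_mul]
  refine integral_congr_ae (Eventually.of_forall fun x => ?_)
  change 2 * (F x * ex l x) + fderiv ℝ (fun x : R2 => F x * ex l x) x x +
    F x * dt (-l) x * ex l x = (2 + c) * (F x * ex l x)
  rw [e1, dt_neg_left]
  ring

/-- the mass of an edge -/
theorem mass {n : ℕ} {θ P : ℕ → R2} {ℓ : ℕ → ℝ} (hG : Gon n θ P ℓ) (l : R2) (k : ℕ) :
    dms θ P ℓ l (-l) P k = EI (ex l) θ P ℓ k := by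
  have hderiv : ∀ s : ℝ, HasDerivAt (fun s : ℝ => s * ex l (P k + s • rt (θ k)))
      (ex l (P k + s • rt (θ k)) + s * (ex l (P k + s • rt (θ k)) * dt l (rt (θ k)))) s := by
    intro s
    have h1 : HasDerivAt (fun s : ℝ => P k + s • rt (θ k)) (rt (θ k)) s := by
      have := ((hasDerivAt_id s).smul_const (rt (θ k))).const_add (P k)
      simpa using this
    have h2 := (hasFDerivAt_ex l (P k + s • rt (θ k))).comp_hasDerivAt s h1
    have h3 := (hasDerivAt_id s).mul h2
    have e : (1 : ℝ) * (ex l ∘ fun s : ℝ => P k + s • rt (θ k)) s +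
        id s * (ex l (P k + s • rt (θ k)) • dl l) (rt (θ k)) =
        ex l (P k + s • rt (θ k)) + s * (ex l (P k + s • rt (θ k)) * dt l (rt (θ k))) := by
      simp only [Function.comp_apply, id, smul_apply, smul_eq_mul, dl_apply,
        one_mul]
    rw [e] at h3
    exact h3
  have cE := continuous_ex l
  have hint := intervalIntegral.integral_eq_sub_of_hasDerivAt (a := 0) (b := ℓ k)
    (fun s _ => hderiv s) (by
      apply Continuous.intervalIntegrable
      fun_prop)
  have hedge := hG.edge k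
  have hτ : dt (rt (θ k)) (rt (θ k)) = 1 := by
    have := hG.unit k
    simp only [dt, rt] at this ⊢
    linarith
  have hlen : dt (rt (θ k)) (P (k + 1) - P k) = ℓ k := by
    rw [hedge, add_sub_cancel_left]
    have : dt (rt (θ k)) (ℓ k • rt (θ k)) = ℓ k * dt (rt (θ k)) (rt (θ k)) := by
      simp only [dt, Prod.smul_fst, Prod.smul_snd, smul_eq_mul]; ring
    rw [this, hτ, mul_one]
  unfold dms
  rw [hlen]
  unfold EI
  rw [hedge]
  rw [zero_mul, sub_zero] at hint
  have h4 : ex l (P k + ℓ k • rt (θ k)) * ℓ k = ∫ s in (0 : ℝ)..ℓ k,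
      (ex l (P k + s • rt (θ k)) + s * (ex l (P k + s • rt (θ k)) * dt l (rt (θ k)))) := by
    rw [hint]; ring
  rw [h4, ← intervalIntegral.integral_add]
  · refine intervalIntegral.integral_congr fun s _ => ?_
    change ex l (P k + s • rt (θ k)) + s * (ex l (P k + s • rt (θ k)) * dt l (rt (θ k))) +
      ex l (P k + s • rt (θ k)) * (dt (-l) (P k + s • rt (θ k)) + dt l (P k)) =
      ex l (P k + s • rt (θ k))
    have h5 : dt (-l) (P k + s • rt (θ k)) + dt l (P k) = -(s * dt l (rt (θ k))) := by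
      simp only [dt, rt, Prod.fst_add, Prod.snd_add, Prod.smul_fst, Prod.smul_snd, smul_eq_mul,
        Prod.fst_neg, Prod.snd_neg]
      ring
    rw [h5]
    ring
  · apply Continuous.intervalIntegrable
    fun_prop
  · apply Continuous.intervalIntegrable
    have := continuous_dt (-l)
    fun_prop

end SCA

open SCA in
theorem blk_SCA : Stmt_GR → Stmt_GN → Stmt_SCA := by
  intro hGR hGN n θ P ℓ l hG hC
  have hJ : 0 < GJ n θ P l := gj_pos hGN hG l
  refine ⟨hG.perP, ?_, ?_, ?_, ?_, ?_⟩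
  · intro k
    rw [hG.edge k]
    exact dt_edge k (ℓ k)
  · intro k
    rw [mass hG l k, mul_div_cancel₀ _ hJ.ne']
    ring
  · have h := area hGR hGN hG l (F := fun _ => (1 : ℝ)) contDiff_const 0 (by
      intro x
      simp)
    rw [h]
    unfold GJ
    simp only [one_mul]
    ring
  · have h := area hGR hGN hG l (F := fun x => x.1) contDiff_fst 1 (by
      intro x
      have : fderiv ℝ (fun x : R2 => x.1) x = ContinuousLinearMap.fst ℝ ℝ ℝ :=
        hasFDerivAt_fst.fderiv
      rw [this]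
      simp)
    rw [h, hC.1, mul_zero]
  · have h := area hGR hGN hG l (F := fun x => x.2) contDiff_snd 1 (by
      intro x
      have : fderiv ℝ (fun x : R2 => x.2) x = ContinuousLinearMap.snd ℝ ℝ ℝ :=
        hasFDerivAt_snd.fderiv
      rw [this]
      simp)
    rw [h, hC.2, mul_zero]

end Pool.LBM
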